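import Pool.Agent.Helper37.KD.DefsC

/-! KD Part I, piece A1 (helper96) -/

namespace KD.I.A1

open Finset KD

variable {G : Type*} [Fintype G] [AddCommGroup G]

/-- (CS) -/
theorem Qf_cv_le (e q m u : G → ℝ) (hq : ∀ z, 0 < q z) (hu : ∀ z, 0 ≤ u z)
    (hm : ∀ z, u z = 0 → m z = 0) :
    Qf (cv e m) (cv q u) ≤ (∑ w, e w ^ 2 / q w) * Qf m u := by
  have key : ∀ z, cv e m z ^ 2 / cv q u z
      ≤ ∑ w, e w ^ 2 / q w * (m (z - w) ^ 2 / u (z - w)) := by
    intro z
    have hR : 0 ≤ ∑ w, e w ^ 2 / q w * (m (z - w) ^ 2 / u (z - w)) :=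
      Finset.sum_nonneg fun w _ =>
        mul_nonneg (div_nonneg (sq_nonneg _) (hq w).le) (div_nonneg (sq_nonneg _) (hu _))
    have hc : 0 ≤ cv q u z := cv_nonneg (fun z => (hq z).le) hu z
    refine div_le_of_le_mul₀ hc hR ?_
    rw [mul_comm]
    have := Finset.sum_sq_le_sum_mul_sum_of_sq_eq_mul (univ : Finset G)
      (r := fun w => e w * m (z - w)) (f := fun w => q w * u (z - w))
      (g := fun w => e w ^ 2 / q w * (m (z - w) ^ 2 / u (z - w)))
      (fun w _ => mul_nonneg (hq w).le (hu _))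
      (fun w _ => mul_nonneg (div_nonneg (sq_nonneg _) (hq w).le) (div_nonneg (sq_nonneg _) (hu _)))
      (fun w _ => by
        have hqw := (hq w).ne'
        rcases eq_or_ne (u (z - w)) 0 with h | h
        · rw [h, hm _ h]; simp
        · field_simp)
    exact this
  unfold Qf
  calc ∑ z, cv e m z ^ 2 / cv q u z
      ≤ ∑ z, ∑ w, e w ^ 2 / q w * (m (z - w) ^ 2 / u (z - w)) :=
        Finset.sum_le_sum fun z _ => key z
    _ = ∑ z, cv (fun w => e w ^ 2 / q w) (fun y => m y ^ 2 / u y) z := rfl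
    _ = (∑ w, e w ^ 2 / q w) * ∑ z, m z ^ 2 / u z := sum_cv _ _

theorem he_neg (u : G → ℝ) (w : G) : he u (-w) = he u w := by
  unfold he
  rw [← sum_shift (fun z => (√(u (z + -w)) - √(u z)) ^ 2) w]
  refine Finset.sum_congr rfl fun z _ => ?_
  have : z + w + -w = z := by abel
  rw [this]
  ring

theorem he_cv_le (q u : G → ℝ) (w : G) (hq : ∀ z, 0 ≤ q z) (hu : ∀ z, 0 ≤ u z) :
    he (cv q u) w ≤ (∑ z, q z) * he u w := by
  have key : ∀ z, (√(cv q u (z + w)) - √(cv q u z)) ^ 2
      ≤ cv q (fun y => (√(u (y + w)) - √(u y)) ^ 2) z := by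
    intro z
    have hA : 0 ≤ cv q u (z + w) := cv_nonneg hq hu _
    have hB : 0 ≤ cv q u z := cv_nonneg hq hu _
    have hcs : (∑ v, q v * (√(u (z - v + w)) * √(u (z - v)))) ^ 2
        ≤ cv q u (z + w) * cv q u z := by
      have := Finset.sum_sq_le_sum_mul_sum_of_sq_eq_mul (univ : Finset G)
        (r := fun v => q v * (√(u (z - v + w)) * √(u (z - v))))
        (f := fun v => q v * u (z + w - v)) (g := fun v => q v * u (z - v))
        (fun v _ => mul_nonneg (hq v) (hu _))
        (fun v _ => mul_nonneg (hq v) (hu _))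
        (fun v _ => by
          have e1 : z + w - v = z - v + w := by abel
          rw [e1]
          have h1 := Real.sq_sqrt (hu (z - v + w))
          have h2 := Real.sq_sqrt (hu (z - v))
          calc (q v * (√(u (z - v + w)) * √(u (z - v)))) ^ 2
              = q v * √(u (z - v + w)) ^ 2 * (q v * √(u (z - v)) ^ 2) := by ring
            _ = _ := by rw [h1, h2])
      exact this
    have hS : ∑ v, q v * (√(u (z - v + w)) * √(u (z - v)))
        ≤ √(cv q u (z + w)) * √(cv q u z) := by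
      rw [← Real.sqrt_mul hA]
      exact Real.le_sqrt_of_sq_le hcs
    have h1 := Real.sq_sqrt hA
    have h2 := Real.sq_sqrt hB
    have hR : cv q (fun y => (√(u (y + w)) - √(u y)) ^ 2) z
        = cv q u (z + w) + cv q u z - 2 * ∑ v, q v * (√(u (z - v + w)) * √(u (z - v))) := by
      unfold cv
      rw [Finset.mul_sum, ← Finset.sum_add_distrib, ← Finset.sum_sub_distrib]
      refine Finset.sum_congr rfl fun v _ => ?_
      have e1 : z + w - v = z - v + w := by abel
      rw [e1]
      have h1 := Real.sq_sqrt (hu (z - v + w))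
      have h2 := Real.sq_sqrt (hu (z - v))
      calc q v * (√(u (z - v + w)) - √(u (z - v))) ^ 2
          = q v * √(u (z - v + w)) ^ 2 + q v * √(u (z - v)) ^ 2
            - 2 * (q v * (√(u (z - v + w)) * √(u (z - v)))) := by ring
        _ = _ := by rw [h1, h2]
    rw [hR]
    nlinarith
  unfold he
  calc ∑ z, (√(cv q u (z + w)) - √(cv q u z)) ^ 2
      ≤ ∑ z, cv q (fun y => (√(u (y + w)) - √(u y)) ^ 2) z :=
        Finset.sum_le_sum fun z _ => key z
    _ = _ := sum_cv _ _

theorem he_le_two (u : G → ℝ) (w : G) (hu : ∀ z, 0 ≤ u z) : he u w ≤ 2 * ∑ z, u z := by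
  have key : ∀ z, (√(u (z + w)) - √(u z)) ^ 2 ≤ u (z + w) + u z := by
    intro z
    have h1 := Real.sq_sqrt (hu (z + w))
    have h2 := Real.sq_sqrt (hu z)
    have h3 := mul_nonneg (Real.sqrt_nonneg (u (z + w))) (Real.sqrt_nonneg (u z))
    nlinarith
  unfold he
  calc ∑ z, (√(u (z + w)) - √(u z)) ^ 2 ≤ ∑ z, (u (z + w) + u z) :=
        Finset.sum_le_sum fun z _ => key z
    _ = 2 * ∑ z, u z := by
        rw [Finset.sum_add_distrib, sum_shift u w, two_mul]

end KD.I.A1
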